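import Pool.Agent.TH130.CI.Cz
import Pool.Agent.Y204.LF.Range2

/-!
Milnor algebras of smooth hypersurfaces: the range in which all maps `ℓ ^ k : M(f)_i → M(f)_{i+k}`
have maximal rank, and the weak Lefschetz property for smooth cubic fourfolds.
-/

open MvPolynomial

namespace Pool.Agent.Results.MP_2e2d1a_ag.CubicFourfolds

/-- Let `f ∈ ℂ[x_0, …, x_n]`, `n = m + 4 ≥ 4`, be a form of degree `d` with `V(f)` smooth (the
partial derivatives have no common zero except the origin), and `M(f)` its Milnor algebra, of socle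
degree `(n + 1) (d - 2)`.  Suppose that `d ≥ 4` and `2 N ≤ 3 (d - 1)`, or that `d = 3`, `n ≥ 5` and
`N ≤ 3`.  Then there is a linear form `ℓ` such that for all `i, k` the map
`ℓ ^ k : M(f)_i → M(f)_{i+k}` is injective if `i + k ≤ N` and surjective if
`i ≥ (n + 1) (d - 2) - N`.

For `n = 5` and `d = 3` the socle degree is `6` and `N = 3` is allowed; hence (second statement) the
Milnor algebra of every smooth cubic fourfold has the weak Lefschetz property. -/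
theorem result (m d : ℕ) (f : MvPolynomial (Fin (m + 4 + 1)) ℂ) (hf : f.IsHomogeneous d)
    (hsm : ∀ x : Fin (m + 4 + 1) → ℂ, (∀ i, eval x (pderiv i f) = 0) → x = 0) :
    (∀ N : ℕ, (4 ≤ d ∧ 2 * N ≤ 3 * (d - 1)) ∨ (d = 3 ∧ 5 ≤ m + 4 ∧ N ≤ 3) →
      ∃ ℓ ∈ homogeneousSubmodule (Fin (m + 4 + 1)) ℂ 1, ∀ i k : ℕ,
        (i + k ≤ N → ∀ g ∈ homogeneousSubmodule (Fin (m + 4 + 1)) ℂ i,
          ℓ ^ k * g ∈ Ideal.span (Set.range (fun i : Fin (m + 4 + 1) => pderiv i f)) →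
          g ∈ Ideal.span (Set.range (fun i : Fin (m + 4 + 1) => pderiv i f))) ∧
        ((m + 4 + 1) * (d - 2) ≤ i + N →
          ∀ h ∈ homogeneousSubmodule (Fin (m + 4 + 1)) ℂ (i + k),
          ∃ g ∈ homogeneousSubmodule (Fin (m + 4 + 1)) ℂ i,
            h - ℓ ^ k * g ∈ Ideal.span (Set.range (fun i : Fin (m + 4 + 1) => pderiv i f)))) ∧
    (m + 4 = 5 → d = 3 →
      ∃ ℓ ∈ homogeneousSubmodule (Fin (m + 4 + 1)) ℂ 1, ∀ i : ℕ,
        (∀ g ∈ homogeneousSubmodule (Fin (m + 4 + 1)) ℂ i,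
          ℓ * g ∈ Ideal.span (Set.range (fun i : Fin (m + 4 + 1) => pderiv i f)) →
          g ∈ Ideal.span (Set.range (fun i : Fin (m + 4 + 1) => pderiv i f))) ∨
        (∀ h ∈ homogeneousSubmodule (Fin (m + 4 + 1)) ℂ (i + 1),
          ∃ g ∈ homogeneousSubmodule (Fin (m + 4 + 1)) ℂ i,
            h - ℓ * g ∈ Ideal.span (Set.range (fun i : Fin (m + 4 + 1) => pderiv i f)))) := by
  have h1 : ∀ N : ℕ, (4 ≤ d ∧ 2 * N ≤ 3 * (d - 1)) ∨ (d = 3 ∧ 5 ≤ m + 4 ∧ N ≤ 3) →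
      ∃ ℓ ∈ homogeneousSubmodule (Fin (m + 4 + 1)) ℂ 1, ∀ i k : ℕ,
        (i + k ≤ N → ∀ g ∈ homogeneousSubmodule (Fin (m + 4 + 1)) ℂ i,
          ℓ ^ k * g ∈ Ideal.span (Set.range (fun i : Fin (m + 4 + 1) => pderiv i f)) →
          g ∈ Ideal.span (Set.range (fun i : Fin (m + 4 + 1) => pderiv i f))) ∧
        ((m + 4 + 1) * (d - 2) ≤ i + N →
          ∀ h ∈ homogeneousSubmodule (Fin (m + 4 + 1)) ℂ (i + k),
          ∃ g ∈ homogeneousSubmodule (Fin (m + 4 + 1)) ℂ i,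
            h - ℓ ^ k * g ∈ Ideal.span (Set.range (fun i : Fin (m + 4 + 1) => pderiv i f))) := by
    intro N hN
    have hd : 3 ≤ d := by omega
    have hp : ∀ i, (pderiv i f).IsHomogeneous (d - 1) := fun i => hf.pderiv
    have hreg := TH130CI.reg_of_common_zero (fun i : Fin (m + 4 + 1) => pderiv i f)
      (fun _ => d - 1) (fun _ => by omega) hp hsm
    have hs : ∑ i : Fin (m + 4), (d - 1 - 1) = (m + 4) * (d - 2) := by
      rw [Finset.sum_const, Finset.card_univ, Fintype.card_fin, smul_eq_mul,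
        show d - 1 - 1 = d - 2 by omega]
    have hs1 : ∑ i : Fin (m + 4 + 1), (d - 1 - 1) = (m + 4 + 1) * (d - 2) := by
      rw [Finset.sum_const, Finset.card_univ, Fintype.card_fin, smul_eq_mul,
        show d - 1 - 1 = d - 2 by omega]
    -- the largest allowed value
    obtain ⟨M, hNM, hM⟩ : ∃ M, N ≤ M ∧ Pool.Agent.Y204.LF.Num (m + 4) (d - 1) (d - 1) (d - 1)
        (d - 1) (∑ i : Fin (m + 4), (d - 1 - 1)) M := by
      rcases hN with ⟨h, h'⟩ | ⟨h, h', h''⟩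
      · exact ⟨N, le_rfl, Or.inr (Or.inr (Or.inr ⟨by omega, by omega, by omega⟩))⟩
      · refine ⟨3, h'', Or.inr (Or.inr (Or.inl ⟨by omega, ?_, by omega⟩))⟩
        rw [hs, h]
        omega
    obtain ⟨ℓ, hℓ, h2⟩ := Pool.Agent.Y204.LF.range_main (N := m + 4) (by omega)
      (f := fun i : Fin (m + 4 + 1) => pderiv i f) (e := fun _ => d - 1) hp (fun _ => by omega)
      (fun _ _ _ => le_rfl) hreg hM
    refine ⟨ℓ, hℓ, fun i k => ⟨fun hi => (h2 i k).1 (by omega), fun hi => (h2 i k).2 ?_⟩⟩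
    rw [hs1]
    omega
  refine ⟨h1, ?_⟩
  intro hm hd
  obtain ⟨ℓ, hℓ, h2⟩ := h1 3 (Or.inr ⟨hd, by omega, le_rfl⟩)
  refine ⟨ℓ, hℓ, fun i => ?_⟩
  rcases Nat.lt_or_ge i 3 with hi | hi
  · left
    intro g hg h
    refine (h2 i 1).1 (by omega) g hg ?_
    rwa [pow_one]
  · right
    intro h hh
    obtain ⟨g, hg, h5⟩ := (h2 i 1).2 (by rw [hm, hd]; omega) h hh
    rw [pow_one] at h5
    exact ⟨g, hg, h5⟩

end Pool.Agent.Results.MP_2e2d1a_ag.CubicFourfolds
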