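import Pool.Agent.Y163.SL.Dbl
import Pool.Agent.TH130.CI.Cz

/-!
Milnor algebras of smooth hypersurfaces: the weak and the strong Lefschetz questions are equivalent.
-/

set_option autoImplicit false

open MvPolynomial

namespace Pool.Agent.Results.MP_2e2d1a_ag.ThomSebastiani

/-- `V(f)` is smooth: the partial derivatives vanish together only at the origin. -/
def Smooth {n : ℕ} (f : MvPolynomial (Fin n) ℂ) : Prop :=
  ∀ x : Fin n → ℂ, (∀ i, eval x (pderiv i f) = 0) → x = 0

/-- The Jacobian ideal of `f`; the Milnor algebra is `M(f) = ℂ[x] / jac f`. -/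
noncomputable def jac {n : ℕ} (f : MvPolynomial (Fin n) ℂ) : Ideal (MvPolynomial (Fin n) ℂ) :=
  Ideal.span (Set.range fun i : Fin n => pderiv i f)

/-- The Milnor algebra of `f` has the weak Lefschetz property. -/
def WLP {n : ℕ} (f : MvPolynomial (Fin n) ℂ) : Prop :=
  ∃ l ∈ homogeneousSubmodule (Fin n) ℂ 1, ∀ i : ℕ,
    (∀ g ∈ homogeneousSubmodule (Fin n) ℂ i, l * g ∈ jac f → g ∈ jac f) ∨
      ∀ h ∈ homogeneousSubmodule (Fin n) ℂ (i + 1), ∃ g ∈ homogeneousSubmodule (Fin n) ℂ i,
        h - l * g ∈ jac f

/-- The Milnor algebra of `f` has the strong Lefschetz property. -/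
def SLP {n : ℕ} (f : MvPolynomial (Fin n) ℂ) : Prop :=
  ∃ l ∈ homogeneousSubmodule (Fin n) ℂ 1, ∀ i k : ℕ,
    (∀ g ∈ homogeneousSubmodule (Fin n) ℂ i, l ^ k * g ∈ jac f → g ∈ jac f) ∨
      ∀ h ∈ homogeneousSubmodule (Fin n) ℂ (i + k), ∃ g ∈ homogeneousSubmodule (Fin n) ℂ i,
        h - l ^ k * g ∈ jac f

/-- The polynomial `f(x) + f(y)` in `2 n` variables. -/
noncomputable def double {n : ℕ} (f : MvPolynomial (Fin n) ℂ) : MvPolynomial (Fin (n + n)) ℂ :=
  rename (Fin.castAdd n) f + rename (Fin.natAdd n) f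

lemma pderiv_double {n : ℕ} (f : MvPolynomial (Fin n) ℂ) :
    (fun i => pderiv i (double f)) = Pool.Agent.Y163.SL.dbl (fun i => pderiv i f) := by
  funext i
  induction i using Fin.addCases with
  | left j =>
    have h0 : pderiv (Fin.castAdd n j) (rename (Fin.natAdd n) f : MvPolynomial (Fin (n + n)) ℂ) = 0 := by
      apply pderiv_eq_zero_of_notMem_vars
      intro hj
      classical
      have h1 := vars_rename (Fin.natAdd n) f hj
      rw [Finset.mem_image] at h1
      obtain ⟨k, _, hk⟩ := h1
      have h2 := congrArg Fin.val hk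
      simp at h2
      omega
    rw [Pool.Agent.Y163.SL.dbl, Fin.append_left, double, map_add,
      pderiv_rename (Fin.castAdd_injective n n), h0, add_zero]
  | right j =>
    have h0 : pderiv (Fin.natAdd n j) (rename (Fin.castAdd n) f : MvPolynomial (Fin (n + n)) ℂ) = 0 := by
      apply pderiv_eq_zero_of_notMem_vars
      intro hj
      classical
      have h1 := vars_rename (Fin.castAdd n) f hj
      rw [Finset.mem_image] at h1
      obtain ⟨k, _, hk⟩ := h1
      have h2 := congrArg Fin.val hk
      simp at h2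
      omega
    rw [Pool.Agent.Y163.SL.dbl, Fin.append_right, double, map_add,
      pderiv_rename (Fin.natAdd_injective n n), h0, zero_add]

lemma smooth_double {n : ℕ} {f : MvPolynomial (Fin n) ℂ} (hf : Smooth f) : Smooth (double f) := by
  intro x hx
  have hx' : ∀ i, eval x (Pool.Agent.Y163.SL.dbl (fun i => pderiv i f) i) = 0 := by
    intro i
    rw [← pderiv_double]
    exact hx i
  have h1 : x ∘ Fin.castAdd n = 0 := by
    apply hf
    intro j
    have := hx' (Fin.castAdd n j)
    rwa [Pool.Agent.Y163.SL.dbl, Fin.append_left, eval_rename] at this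
  have h2 : x ∘ Fin.natAdd n = 0 := by
    apply hf
    intro j
    have := hx' (Fin.natAdd n j)
    rwa [Pool.Agent.Y163.SL.dbl, Fin.append_right, eval_rename] at this
  funext i
  induction i using Fin.addCases with
  | left j => exact congrFun h1 j
  | right j => exact congrFun h2 j

lemma main {n d : ℕ} (f : MvPolynomial (Fin n) ℂ) (hd : 2 ≤ d) (hf : f.IsHomogeneous d)
    (hs : Smooth f) : SLP f ↔ WLP (double f) := by
  have h : Pool.Agent.Y163.SL.CI (fun i => pderiv i f) (fun _ => d - 1) :=
    ⟨fun i => hf.pderiv, fun _ => by omega,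
      TH130CI.reg_of_common_zero _ (fun _ => d - 1) (fun _ => by omega) (fun i => hf.pderiv) hs⟩
  have hp : ∀ i, (Pool.Agent.Y163.SL.dbl (fun i => pderiv i f) i).IsHomogeneous
      (Pool.Agent.Y163.SL.de (fun _ : Fin n => d - 1) i) := by
    intro i
    induction i using Fin.addCases with
    | left j =>
      rw [Pool.Agent.Y163.SL.dbl, Pool.Agent.Y163.SL.de, Fin.append_left, Fin.append_left]
      exact (h.hf j).rename_isHomogeneous
    | right j =>
      rw [Pool.Agent.Y163.SL.dbl, Pool.Agent.Y163.SL.de, Fin.append_right, Fin.append_right]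
      exact (h.hf j).rename_isHomogeneous
  have hpos : ∀ i, 1 ≤ Pool.Agent.Y163.SL.de (fun _ : Fin n => d - 1) i := by
    intro i
    induction i using Fin.addCases with
    | left j =>
      rw [Pool.Agent.Y163.SL.de, Fin.append_left]
      omega
    | right j =>
      rw [Pool.Agent.Y163.SL.de, Fin.append_right]
      omega
  have h2 : Pool.Agent.Y163.SL.CI (Pool.Agent.Y163.SL.dbl (fun i => pderiv i f))
      (Pool.Agent.Y163.SL.de (fun _ : Fin n => d - 1)) :=
    ⟨hp, hpos, TH130CI.reg_of_common_zero _ _ hpos hp (fun x hx => smooth_double hs x (fun i => by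
      have := congrFun (pderiv_double f) i
      rw [this]
      exact hx i))⟩
  have key := Pool.Agent.Y163.SL.slp_wlp h h2
  have hj : Pool.Agent.Y163.SL.Id (Pool.Agent.Y163.SL.dbl (fun i => pderiv i f)) =
      jac (double f) := by
    unfold jac
    rw [← pderiv_double]
  rw [hj] at key
  exact key

/-- **Weak and strong Lefschetz properties of Milnor algebras of smooth hypersurfaces.**

(1) Let `f ∈ ℂ[x_0, …, x_n]` be a form of degree `d ≥ 2` with `V(f)` smooth.  Then `f(x) + f(y)` is
a form of degree `d` in `2 (n + 1)` variables which defines a smooth hypersurface, and the Milnor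
algebra `M(f)` has the strong Lefschetz property if and only if the Milnor algebra
`M(f(x) + f(y))` has the weak Lefschetz property.

(2) For every `d ≥ 2`: the Milnor algebras of all smooth hypersurfaces of degree `d` have the weak
Lefschetz property if and only if they all have the strong Lefschetz property. -/
theorem result :
    (∀ (n d : ℕ) (f : MvPolynomial (Fin (n + 1)) ℂ), 2 ≤ d → f.IsHomogeneous d → Smooth f →
      (double f).IsHomogeneous d ∧ Smooth (double f) ∧ (SLP f ↔ WLP (double f))) ∧
    ∀ d : ℕ, 2 ≤ d →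
      ((∀ (n : ℕ) (f : MvPolynomial (Fin (n + 1)) ℂ), f.IsHomogeneous d → Smooth f → WLP f) ↔
        ∀ (n : ℕ) (f : MvPolynomial (Fin (n + 1)) ℂ), f.IsHomogeneous d → Smooth f → SLP f) := by
  have hhom : ∀ (n d : ℕ) (f : MvPolynomial (Fin (n + 1)) ℂ), f.IsHomogeneous d →
      (double f).IsHomogeneous d := fun n d f hf =>
    (hf.rename_isHomogeneous).add (hf.rename_isHomogeneous)
  refine ⟨fun n d f hd hf hs => ⟨hhom n d f hf, smooth_double hs, main f hd hf hs⟩,
    fun d hd => ⟨fun H n f hf hs => ?_, fun H n f hf hs => ?_⟩⟩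
  · exact (main f hd hf hs).2 (H (n + 1 + n) (double f) (hhom n d f hf) (smooth_double hs))
  · obtain ⟨l, hl, h1⟩ := H n f hf hs
    refine ⟨l, hl, fun i => ?_⟩
    have h2 := h1 i 1
    simpa only [pow_one] using h2

end Pool.Agent.Results.MP_2e2d1a_ag.ThomSebastiani
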